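import Pool.Agent.LibT28.MainA

set_option autoImplicit false

namespace Pool.Agent.Results.MP_e100a9_al.CentralFrattini

/-- The character table alone (no power map) determines the order of the normalizer of a Sylow
`p`-subgroup of `G` if there are normal subgroups `R ≤ F ≤ C ≤ L ≤ M ≤ K` of `G` such that `R` is a
`p`-group, `F / R` is nilpotent, `C / F` is a `p`-group, `L / C` has order prime to `p`, `M / L` is a
`p`-group all of whose subgroups are normal in `G / L` and which is central in `K / L`, `K / M` is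
elementary abelian and `|G : K|` is prime to `p`. Nothing is assumed on the second group `H` beyond
having the same character table as `G`. -/
theorem result :
    ∀ (G H : Type) [Group G] [Group H] [Finite G] [Finite H] (p : ℕ), p.Prime →
      ∀ (P : Sylow p G) (Q : Sylow p H),
      (∃ (R F C L M K : Subgroup G) (_ : R.Normal) (_ : F.Normal) (_ : C.Normal) (_ : L.Normal)
          (_ : M.Normal) (_ : K.Normal),
        IsPGroup p R ∧ R ≤ F ∧ F ≤ C ∧ C ≤ L ∧ L ≤ M ∧ M ≤ K ∧
        Group.IsNilpotent (F.map (QuotientGroup.mk' R)) ∧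
        (∃ a : ℕ, F.relIndex C = p ^ a) ∧
        ¬ p ∣ C.relIndex L ∧ (∃ b : ℕ, L.relIndex M = p ^ b) ∧
        (∀ X : Subgroup G, L ≤ X → X ≤ M → X.Normal) ∧
        (∀ m ∈ M, ∀ k ∈ K, m * k * m⁻¹ * k⁻¹ ∈ L) ∧ (∀ a ∈ K, a ^ p ∈ M) ∧
        (∀ a ∈ K, ∀ b ∈ K, a * b * a⁻¹ * b⁻¹ ∈ M) ∧ ¬ p ∣ K.index) →
      (∃ σ : ConjClasses G ≃ ConjClasses H,
        (∀ V : FDRep ℂ G, CategoryTheory.Simple V →
          ∃ W : FDRep ℂ H, CategoryTheory.Simple W ∧
            ∀ (g : G) (h : H), σ (ConjClasses.mk g) = ConjClasses.mk h →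
              V.character g = W.character h) ∧
        (∀ W : FDRep ℂ H, CategoryTheory.Simple W →
          ∃ V : FDRep ℂ G, CategoryTheory.Simple V ∧
            ∀ (g : G) (h : H), σ (ConjClasses.mk g) = ConjClasses.mk h →
              V.character g = W.character h)) →
      Nat.card {g : G // ∀ x : G, x ∈ (P : Subgroup G) ↔ g * x * g⁻¹ ∈ (P : Subgroup G)} =
        Nat.card {h : H // ∀ y : H, y ∈ (Q : Subgroup H) ↔ h * y * h⁻¹ ∈ (Q : Subgroup H)} := by
  intro G H _ _ _ _ p hp P Q hs hσ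
  obtain ⟨R, F, C, L, M, K, n0, n1, n2, n3, n4, n5, hR, h0, h1, h2, h3, h4, nil, pC, pL, pM,
    nor, cen, pow, com, pG⟩ := hs
  obtain ⟨σ, hσ⟩ := hσ
  have hσ' : Tab12.SameTable σ := hσ
  have : Fact p.Prime := ⟨hp⟩
  have hG : Nat.card {g : G // ∀ x : G, x ∈ (P : Subgroup G) ↔ g * x * g⁻¹ ∈ (P : Subgroup G)} =
      Nat.card (Subgroup.normalizer ((P : Subgroup G) : Set G)) :=
    Nat.card_congr (Equiv.subtypeEquivRight fun g => Subgroup.mem_normalizer_iff.symm)
  have hH : Nat.card {g : H // ∀ x : H, x ∈ (Q : Subgroup H) ↔ g * x * g⁻¹ ∈ (Q : Subgroup H)} =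
      Nat.card (Subgroup.normalizer ((Q : Subgroup H) : Set H)) :=
    Nat.card_congr (Equiv.subtypeEquivRight fun g => Subgroup.mem_normalizer_iff.symm)
  rw [hG, hH]
  exact T28.MainA hσ' p R F C L M K hR h0 h1 h2 h3 h4 nil pC pL pM nor cen pow com pG P Q

end Pool.Agent.Results.MP_e100a9_al.CentralFrattini
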