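import Pool.Agent.LibT26.Final

set_option autoImplicit false

namespace Pool.Agent.Results.MP_e100a9_al.FourLayers

/-- The character table alone (no power map) determines the order of the normalizer of a Sylow
`p`-subgroup of `G` if `G` has normal subgroups `R ≤ F₁ ≤ F₂ ≤ C ≤ K` such that `R` and `C / F₂`
are `p`-groups, `F₁ / R` and `F₂ / F₁` are nilpotent, `|K : C|` is prime to `p` and `G / K` is an
abelian `p`-group.

For every prime `p` this contains the solvable groups whose derived subgroup has Fitting height at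
most three (in particular those of derived length at most four) and the solvable groups of Fitting
height at most three: see `T26.Main_C` and `T26.Main_D`. Nothing is assumed on the second group `H`
beyond having the same character table as `G`. -/
theorem result :
    ∀ (G H : Type) [Group G] [Group H] [Finite G] [Finite H] (p : ℕ), p.Prime →
      ∀ (P : Sylow p G) (Q : Sylow p H),
      (∃ (R F₁ F₂ C K : Subgroup G) (_ : R.Normal) (_ : F₁.Normal), F₂.Normal ∧ C.Normal ∧
          K.Normal ∧ R ≤ F₁ ∧ F₁ ≤ F₂ ∧ F₂ ≤ C ∧ C ≤ K ∧ IsPGroup p R ∧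
          Group.IsNilpotent (F₁.map (QuotientGroup.mk' R)) ∧
          Group.IsNilpotent (F₂.map (QuotientGroup.mk' F₁)) ∧
          (∃ a : ℕ, F₂.relIndex C = p ^ a) ∧ ¬ p ∣ C.relIndex K ∧ (∃ b : ℕ, K.index = p ^ b) ∧
          ∀ x y : G, x * y * x⁻¹ * y⁻¹ ∈ K) →
      (∃ σ : ConjClasses G ≃ ConjClasses H,
        (∀ V : FDRep ℂ G, CategoryTheory.Simple V →
          ∃ W : FDRep ℂ H, CategoryTheory.Simple W ∧
            ∀ (g : G) (h : H), σ (ConjClasses.mk g) = ConjClasses.mk h →
              V.character g = W.character h) ∧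
        (∀ W : FDRep ℂ H, CategoryTheory.Simple W →
          ∃ V : FDRep ℂ G, CategoryTheory.Simple V ∧
            ∀ (g : G) (h : H), σ (ConjClasses.mk g) = ConjClasses.mk h →
              V.character g = W.character h)) →
      Nat.card {g : G // ∀ x : G, x ∈ (P : Subgroup G) ↔ g * x * g⁻¹ ∈ (P : Subgroup G)} =
        Nat.card {h : H // ∀ y : H, y ∈ (Q : Subgroup H) ↔ h * y * h⁻¹ ∈ (Q : Subgroup H)} := by
  intro G H _ _ _ _ p hp P Q hcase hσ
  obtain ⟨σ, hσ⟩ := hσ
  have hσ' : Tab12.SameTable σ := hσ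
  have : Fact p.Prime := ⟨hp⟩
  have hG : Nat.card {g : G // ∀ x : G, x ∈ (P : Subgroup G) ↔ g * x * g⁻¹ ∈ (P : Subgroup G)} =
      Nat.card (Subgroup.normalizer ((P : Subgroup G) : Set G)) :=
    Nat.card_congr (Equiv.subtypeEquivRight fun g => Subgroup.mem_normalizer_iff.symm)
  have hH : Nat.card {g : H // ∀ x : H, x ∈ (Q : Subgroup H) ↔ g * x * g⁻¹ ∈ (Q : Subgroup H)} =
      Nat.card (Subgroup.normalizer ((Q : Subgroup H) : Set H)) :=
    Nat.card_congr (Equiv.subtypeEquivRight fun g => Subgroup.mem_normalizer_iff.symm)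
  rw [hG, hH]
  obtain ⟨R, F₁, F₂, C, K, hRn, h1n, h2n, hCn, hKn, h0, h1, h2, h3, hR, n1, n2, pC, pK, pG, ab⟩ :=
    hcase
  exact T26.Main_T hσ' p R F₁ F₂ C K hR h0 h1 h2 h3 n1 n2 pC pK pG ab P Q

end Pool.Agent.Results.MP_e100a9_al.FourLayers
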