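import Pool.Agent.LibT12M.Main

set_option autoImplicit false

namespace Pool.Agent.Results.MP_e100a9_al.PNilpotent

/-- The character table alone (no power map) determines the order of the normalizer of a Sylow
`p`-subgroup of `G` if `G` has normal subgroups `R ≤ K` such that `R` is a `p`-group, `K / R` has
order prime to `p`, `G / K` is a `p`-group and (for example) `G / K` has class at most two, or an
abelian subgroup of index `p`, or a cyclic commutator subgroup, or order at most `p ^ 5`, or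
all `p`-th powers central. The general condition is the first one: for every `x` either `x ^ p` is
central modulo `K`, or for all normal subgroups `K ≤ M < M₁` such that `M₁ / M` is the unique
minimal normal subgroup of `G / M`, every subgroup `S / M` of `G / M` which does not contain
`M₁ / M` and meets the coset `x M₁` is abelian. Nothing is assumed on the second group `H` beyond
having the same character table as `G`. -/
theorem result :
    ∀ (G H : Type) [Group G] [Group H] [Finite G] [Finite H] (p : ℕ), p.Prime →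
      ∀ (P : Sylow p G) (Q : Sylow p H),
      (∃ (R K : Subgroup G) (_ : R.Normal) (_ : K.Normal),
        IsPGroup p R ∧ R ≤ K ∧ ¬ p ∣ R.relIndex K ∧ (∃ b : ℕ, K.index = p ^ b) ∧
        ((∀ x : G, (∀ g : G, x ^ p * g * (x ^ p)⁻¹ * g⁻¹ ∈ K) ∨
            ∀ M M₁ S : Subgroup G, M.Normal → M₁.Normal → K ≤ M → M < M₁ →
              (∀ N : Subgroup G, N.Normal → M < N → M₁ ≤ N) → M ≤ S → ¬ M₁ ≤ S →
              (∃ n ∈ M₁, x * n ∈ S) → ∀ a ∈ S, ∀ b ∈ S, a * b * a⁻¹ * b⁻¹ ∈ M) ∨
          (∀ a b g : G, (a * b * a⁻¹ * b⁻¹) * g * (a * b * a⁻¹ * b⁻¹)⁻¹ * g⁻¹ ∈ K) ∨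
          (∃ A : Subgroup G, K ≤ A ∧ A.index = p ∧ ∀ a ∈ A, ∀ b ∈ A, a * b * a⁻¹ * b⁻¹ ∈ K) ∨
          (∃ u : G, ∀ a b : G, ∃ n : ℤ, a * b * a⁻¹ * b⁻¹ * u ^ n ∈ K) ∨
          K.index ∣ p ^ 5)) →
      (∃ σ : ConjClasses G ≃ ConjClasses H,
        (∀ V : FDRep ℂ G, CategoryTheory.Simple V →
          ∃ W : FDRep ℂ H, CategoryTheory.Simple W ∧
            ∀ (g : G) (h : H), σ (ConjClasses.mk g) = ConjClasses.mk h →
              V.character g = W.character h) ∧
        (∀ W : FDRep ℂ H, CategoryTheory.Simple W →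
          ∃ V : FDRep ℂ G, CategoryTheory.Simple V ∧
            ∀ (g : G) (h : H), σ (ConjClasses.mk g) = ConjClasses.mk h →
              V.character g = W.character h)) →
      Nat.card {g : G // ∀ x : G, x ∈ (P : Subgroup G) ↔ g * x * g⁻¹ ∈ (P : Subgroup G)} =
        Nat.card {h : H // ∀ y : H, y ∈ (Q : Subgroup H) ↔ h * y * h⁻¹ ∈ (Q : Subgroup H)} := by
  intro G H _ _ _ _ p hp P Q hs hσ
  obtain ⟨R, K, n0, n1, hR, h0, h1, h2, h3⟩ := hs
  obtain ⟨σ, hσ⟩ := hσ
  have hσ' : Tab12.SameTable σ := hσ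
  have : Fact p.Prime := ⟨hp⟩
  have hG : Nat.card {g : G // ∀ x : G, x ∈ (P : Subgroup G) ↔ g * x * g⁻¹ ∈ (P : Subgroup G)} =
      Nat.card (Subgroup.normalizer ((P : Subgroup G) : Set G)) :=
    Nat.card_congr (Equiv.subtypeEquivRight fun g => Subgroup.mem_normalizer_iff.symm)
  have hH : Nat.card {g : H // ∀ x : H, x ∈ (Q : Subgroup H) ↔ g * x * g⁻¹ ∈ (Q : Subgroup H)} =
      Nat.card (Subgroup.normalizer ((Q : Subgroup H) : Set H)) :=
    Nat.card_congr (Equiv.subtypeEquivRight fun g => Subgroup.mem_normalizer_iff.symm)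
  rw [hG, hH]
  exact T12M.mainM hσ' R K hR h0 h1 h2 (T12M.families K h2 h3) P Q

end Pool.Agent.Results.MP_e100a9_al.PNilpotent
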