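import Pool.Agent.LibQL12.Final

set_option autoImplicit false

namespace Pool.Agent.Results.MP_e100a9_al.QLengthOne

/-- The character table alone (no power map) determines the order of the normalizer of a Sylow
`p`-subgroup `P` of `G` if `G` has a series of normal subgroups from `1` to `E` with `P E / E`
cyclic whose factors `V` are: `p`-groups; or `p'`-groups on which `P` induces a cyclic group (an
abelian group, if `G` is `p`-solvable); or `q`-groups for primes `q ≠ p` such that `G` has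
`q`-length at most one or abelian Sylow `q`-subgroups, or such that some normal subgroup `W` of `G`
acts on `V` as a `p`-group without nontrivial fixed points. (`E = G`: for example all `G` with
`q`-length at most one for all `q ≠ p`.) Nothing is assumed on the second group `H` beyond having
the same character table as `G`. -/
theorem result :
    ∀ (G H : Type) [Group G] [Group H] [Finite G] [Finite H] (p : ℕ), p.Prime →
      ∀ (P : Sylow p G) (Q : Sylow p H),
      (∃ (E : Subgroup G) (_ : E.Normal),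
        (∃ (n : ℕ) (s : ℕ → Subgroup G), s 0 = ⊥ ∧ s n = E ∧ (∀ i, (s i).Normal) ∧
          ∀ i < n, s i ≤ s (i + 1) ∧
            ((∃ k : ℕ, (s i).relIndex (s (i + 1)) = p ^ k) ∨
            (¬ p ∣ (s i).relIndex (s (i + 1)) ∧
              ∃ x ∈ (P : Subgroup G), ∀ y ∈ (P : Subgroup G), ∃ m : ℕ, ∀ v ∈ s (i + 1),
                (y * x ^ m) * v * (y * x ^ m)⁻¹ * v⁻¹ ∈ s i) ∨
            (¬ p ∣ (s i).relIndex (s (i + 1)) ∧
              (∃ (m : ℕ) (t : ℕ → Subgroup G), t 0 = ⊥ ∧ t m = ⊤ ∧ (∀ j, (t j).Normal) ∧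
                ∀ j < m, t j ≤ t (j + 1) ∧
                  ((∃ k : ℕ, (t j).relIndex (t (j + 1)) = p ^ k) ∨
                    ¬ p ∣ (t j).relIndex (t (j + 1)))) ∧
              ∀ x ∈ (P : Subgroup G), ∀ y ∈ (P : Subgroup G), ∀ v ∈ s (i + 1),
                (x * y * x⁻¹ * y⁻¹) * v * (x * y * x⁻¹ * y⁻¹)⁻¹ * v⁻¹ ∈ s i) ∨
            (∃ q : ℕ, q.Prime ∧ q ≠ p ∧ (∃ k : ℕ, (s i).relIndex (s (i + 1)) = q ^ k) ∧
              ((∃ A B : Subgroup G, A.Normal ∧ B.Normal ∧ A ≤ B ∧
                ¬ q ∣ Nat.card A ∧ (∃ k : ℕ, A.relIndex B = q ^ k) ∧ ¬ q ∣ B.index) ∨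
              (∀ S : Sylow q G, ∀ x ∈ (S : Subgroup G), ∀ y ∈ (S : Subgroup G),
                x * y = y * x) ∨
              (∃ C W : Subgroup G, C.Normal ∧ W.Normal ∧ C ≤ W ∧
                (∃ k : ℕ, C.relIndex W = p ^ k) ∧
                (∀ c ∈ C, ∀ v ∈ s (i + 1), c * v * c⁻¹ * v⁻¹ ∈ s i) ∧
                ∀ v ∈ s (i + 1), (∀ w ∈ W, w * v * w⁻¹ * v⁻¹ ∈ s i) → v ∈ s i))))) ∧
        IsCyclic ↥((P : Subgroup G).map (QuotientGroup.mk' E))) →
      (∃ σ : ConjClasses G ≃ ConjClasses H,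
        (∀ V : FDRep ℂ G, CategoryTheory.Simple V →
          ∃ W : FDRep ℂ H, CategoryTheory.Simple W ∧
            ∀ (g : G) (h : H), σ (ConjClasses.mk g) = ConjClasses.mk h →
              V.character g = W.character h) ∧
        (∀ W : FDRep ℂ H, CategoryTheory.Simple W →
          ∃ V : FDRep ℂ G, CategoryTheory.Simple V ∧
            ∀ (g : G) (h : H), σ (ConjClasses.mk g) = ConjClasses.mk h →
              V.character g = W.character h)) →
      Nat.card {g : G // ∀ x : G, x ∈ (P : Subgroup G) ↔ g * x * g⁻¹ ∈ (P : Subgroup G)} =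
        Nat.card {h : H // ∀ y : H, y ∈ (Q : Subgroup H) ↔ h * y * h⁻¹ ∈ (Q : Subgroup H)} := by
  intro G H _ _ _ _ p hp P Q hE hσ
  obtain ⟨E, hEn, hE, hs⟩ := hE
  obtain ⟨σ, hσ⟩ := hσ
  have hσ' : Tab12.SameTable σ := hσ
  have : Fact p.Prime := ⟨hp⟩
  have hG : Nat.card {g : G // ∀ x : G, x ∈ (P : Subgroup G) ↔ g * x * g⁻¹ ∈ (P : Subgroup G)} =
      Nat.card (Subgroup.normalizer ((P : Subgroup G) : Set G)) :=
    Nat.card_congr (Equiv.subtypeEquivRight fun g => Subgroup.mem_normalizer_iff.symm)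
  have hH : Nat.card {g : H // ∀ x : H, x ∈ (Q : Subgroup H) ↔ g * x * g⁻¹ ∈ (Q : Subgroup H)} =
      Nat.card (Subgroup.normalizer ((Q : Subgroup H) : Set H)) :=
    Nat.card_congr (Equiv.subtypeEquivRight fun g => Subgroup.mem_normalizer_iff.symm)
  rw [hG, hH]
  exact QL12.Main_QL hσ' p E P Q hE hs

end Pool.Agent.Results.MP_e100a9_al.QLengthOne
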